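import Mathlib

set_option autoImplicit false

namespace Pool.Agent.Results.MP_b7f2f1_an.NotSemi

section defs
variable {X : Type} [NormedAddCommGroup X] [NormedSpace ℝ X]

/-- `(e, f)` is a Markushevich basis with its biorthogonal functionals. -/
def IsMarkushevich (e : ℕ → X) (f : ℕ → X →L[ℝ] ℝ) : Prop :=
  (∀ k n, f k (e n) = if k = n then 1 else 0) ∧
  Dense (Submodule.span ℝ (Set.range e) : Set X) ∧ ∀ x, (∀ n, f n x = 0) → x = 0

/-- `A` is a greedy set of `x`. -/
def IsGreedySet (f : ℕ → X →L[ℝ] ℝ) (x : X) (A : Finset ℕ) : Prop :=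
  ∀ n ∈ A, ∀ k ∉ A, |f k x| ≤ |f n x|

/-- The basis is 1-almost-greedy. -/
def OneAlmostGreedy (e : ℕ → X) (f : ℕ → X →L[ℝ] ℝ) : Prop :=
  ∀ (x : X) (A : Finset ℕ), IsGreedySet f x A →
    ‖x - ∑ n ∈ A, f n x • e n‖ ≤
      sInf {r : ℝ | ∃ B : Finset ℕ, B.card ≤ A.card ∧ r = ‖x - ∑ n ∈ B, f n x • e n‖}

/-- The basis is 1-semi-greedy. -/
def OneSemiGreedy (e : ℕ → X) (f : ℕ → X →L[ℝ] ℝ) : Prop :=
  ∀ (x : X) (A : Finset ℕ), IsGreedySet f x A →
    sInf {r : ℝ | ∃ a : ℕ → ℝ, r = ‖x - ∑ n ∈ A, a n • e n‖} ≤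
      sInf {r : ℝ | ∃ (B : Finset ℕ) (a : ℕ → ℝ), B.card ≤ A.card ∧ r = ‖x - ∑ n ∈ B, a n • e n‖}

end defs

abbrev L1 : Type := lp (fun _ : ℕ => ℝ) 1

noncomputable def sg (i : ℕ) (a : ℝ) : L1 := lp.single 1 i a

noncomputable def sup (z : L1) : ℝ := ⨆ i, |z i|

theorem abs_le_norm (z : L1) (i : ℕ) : |z i| ≤ ‖z‖ := lp.norm_apply_le_norm one_ne_zero z i

theorem le_sup (z : L1) (i : ℕ) : |z i| ≤ sup z :=
  le_ciSup (f := fun i => |z i|) ⟨‖z‖, by rintro _ ⟨i, rfl⟩; exact abs_le_norm z i⟩ i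

theorem sup_le {z : L1} {c : ℝ} (h : ∀ i, |z i| ≤ c) : sup z ≤ c := ciSup_le h

theorem norm_compl (z : L1) (A : Finset ℕ) :
    ‖z - ∑ i ∈ A, sg i (z i)‖ = ‖z‖ - ∑ i ∈ A, |z i| := by
  simpa [sg] using lp.norm_compl_sum_single (p := 1) (by simp) z A

theorem compl_apply (z : L1) (A : Finset ℕ) (a : ℕ → ℝ) (j : ℕ) :
    (z - ∑ i ∈ A, sg i (a i)) j = z j - if j ∈ A then a j else 0 := by
  rw [lp.coeFn_sub, Pi.sub_apply, lp.coeFn_sum]
  simp only [sg, lp.coeFn_single, Finset.sum_apply, Finset.sum_pi_single]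

noncomputable def T (z : L1) : ℝ := ‖z - ∑ i ∈ ({0, 1} : Finset ℕ), sg i (z i)‖

theorem T_eq (z : L1) : T z = ‖z‖ - (|z 0| + |z 1|) := by
  rw [T, norm_compl]; simp

noncomputable def G (z : L1) : ℝ :=
  max (sup z + |z 0 - z 1|) (max (2 * |z 0| + |z 1|) (|z 0| + 2 * |z 1|))

noncomputable def N (z : L1) : ℝ := T z + G z

theorem T_add (x y : L1) : T (x + y) ≤ T x + T y := by
  refine le_trans (le_of_eq ?_) (norm_add_le _ _)
  unfold T
  congr 1
  simp only [sg, lp.coeFn_add, Pi.add_apply, lp.single_add, Finset.sum_add_distrib]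
  abel

theorem T_smul (c : ℝ) (x : L1) : T (c • x) = |c| * T x := by
  rw [T_eq, T_eq, norm_smul]
  simp [abs_mul]; ring

theorem sup_smul_le (c : ℝ) (x : L1) : sup (c • x) ≤ |c| * sup x :=
  sup_le fun i => by
    simpa [abs_mul] using mul_le_mul_of_nonneg_left (le_sup x i) (abs_nonneg c)

theorem N_smul_le (c : ℝ) (x : L1) : N (c • x) ≤ |c| * N x := by
  rw [N, N, T_smul, mul_add]
  refine add_le_add_right ?_ _
  have hc := abs_nonneg c
  have e0 : |(c • x) 0| = |c| * |x 0| := by simp [abs_mul]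
  have e1 : |(c • x) 1| = |c| * |x 1| := by simp [abs_mul]
  have e2 : |(c • x) 0 - (c • x) 1| = |c| * |x 0 - x 1| := by
    rw [← abs_mul]; simp [mul_sub]
  have h0 : sup x + |x 0 - x 1| ≤ G x := le_max_left _ _
  have h1 := mul_le_mul_of_nonneg_left h0 hc
  have h2 := mul_le_mul_of_nonneg_left
    ((le_max_left _ _).trans (le_max_right _ _) : 2 * |x 0| + |x 1| ≤ G x) hc
  have h3 := mul_le_mul_of_nonneg_left
    ((le_max_right _ _).trans (le_max_right _ _) : |x 0| + 2 * |x 1| ≤ G x) hc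
  have h4 := sup_smul_le c x
  rw [G, e0, e1, e2]
  refine max_le (by linarith) (max_le (by linarith) (by linarith))

theorem N_add_le (x y : L1) : N (x + y) ≤ N x + N y := by
  have h0 := T_add x y
  have a1 : sup x + |x 0 - x 1| ≤ G x := le_max_left _ _
  have a2 : 2 * |x 0| + |x 1| ≤ G x := (le_max_left _ _).trans (le_max_right _ _)
  have a3 : |x 0| + 2 * |x 1| ≤ G x := (le_max_right _ _).trans (le_max_right _ _)
  have b1 : sup y + |y 0 - y 1| ≤ G y := le_max_left _ _
  have b2 : 2 * |y 0| + |y 1| ≤ G y := (le_max_left _ _).trans (le_max_right _ _)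
  have b3 : |y 0| + 2 * |y 1| ≤ G y := (le_max_right _ _).trans (le_max_right _ _)
  have c0 : |(x + y) 0| ≤ |x 0| + |y 0| := by simpa using abs_add_le _ _
  have c1 : |(x + y) 1| ≤ |x 1| + |y 1| := by simpa using abs_add_le _ _
  have c2 : |(x + y) 0 - (x + y) 1| ≤ |x 0 - x 1| + |y 0 - y 1| := by
    refine le_trans (le_of_eq ?_) (abs_add_le _ _)
    congr 1; simp; ring
  have c3 : sup (x + y) ≤ sup x + sup y := sup_le fun i => by
    have : |(x + y) i| ≤ |x i| + |y i| := by simpa using abs_add_le _ _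
    linarith [le_sup x i, le_sup y i]
  have : G (x + y) ≤ G x + G y :=
    max_le (by linarith) (max_le (by linarith) (by linarith))
  unfold N; linarith

theorem norm_le_N (z : L1) : ‖z‖ ≤ N z := by
  have a2 : 2 * |z 0| + |z 1| ≤ G z := (le_max_left _ _).trans (le_max_right _ _)
  rw [N, T_eq]; linarith [abs_nonneg (z 0)]

theorem N_le_sup (z : L1) : N z ≤ ‖z‖ + sup z := by
  have : G z ≤ sup z + (|z 0| + |z 1|) :=
    max_le (by linarith [abs_sub (z 0) (z 1)])
      (max_le (by linarith [le_sup z 0]) (by linarith [le_sup z 1]))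
  rw [N, T_eq]; linarith

theorem N_le_norm (z : L1) : N z ≤ 2 * ‖z‖ := by
  linarith [N_le_sup z, sup_le (abs_le_norm z)]

theorem greedy (x : L1) (A B : Finset ℕ) (hA : ∀ n ∈ A, ∀ k ∉ A, |x k| ≤ |x n|)
    (hB : B.card ≤ A.card) : N (x - ∑ i ∈ A, sg i (x i)) ≤ N (x - ∑ i ∈ B, sg i (x i)) := by
  by_cases hAB : A ⊆ B
  · rw [Finset.eq_of_subset_of_card_le hAB hB]
  obtain ⟨n₀, hn₀A, hn₀B⟩ := Finset.not_subset.mp hAB
  obtain ⟨y, hy⟩ : ∃ y, y = x - ∑ i ∈ A, sg i (x i) := ⟨_, rfl⟩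
  obtain ⟨w, hw⟩ : ∃ w, w = x - ∑ i ∈ B, sg i (x i) := ⟨_, rfl⟩
  have hy' : ∀ j, y j = if j ∈ A then 0 else x j := fun j => by
    rw [hy, compl_apply]; split_ifs <;> simp
  have hw' : ∀ j, w j = if j ∈ B then 0 else x j := fun j => by
    rw [hw, compl_apply]; split_ifs <;> simp
  have hsup : ∀ n ∈ A, sup y ≤ |x n| := fun n hn => sup_le fun j => by
    rw [hy']; split_ifs with h
    · simp
    · exact hA n hn j h
  have hs : sup y ≤ sup w := by
    have := le_sup w n₀
    rw [hw', if_neg hn₀B] at this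
    exact (hsup n₀ hn₀A).trans this
  have hn : ‖y‖ ≤ ‖w‖ := by
    rw [hy, hw, norm_compl, norm_compl]
    have e1 := Finset.sum_sdiff (f := fun i => |x i|) (Finset.inter_subset_left (s₁ := A) (s₂ := B))
    have e2 := Finset.sum_sdiff (f := fun i => |x i|) (Finset.inter_subset_right (s₁ := A) (s₂ := B))
    obtain ⟨m, hm, hmin⟩ := Finset.exists_min_image A (fun i => |x i|) ⟨n₀, hn₀A⟩
    have h1 : ∑ i ∈ B \ (A ∩ B), |x i| ≤ (B \ (A ∩ B)).card • |x m| :=
      Finset.sum_le_card_nsmul _ _ _ fun i hi => hA m hm i (by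
        intro h; simp [h] at hi)
    have h2 : (A \ (A ∩ B)).card • |x m| ≤ ∑ i ∈ A \ (A ∩ B), |x i| :=
      Finset.card_nsmul_le_sum _ _ _ fun i hi => hmin i (Finset.mem_sdiff.mp hi).1
    have h3 : (B \ (A ∩ B)).card ≤ (A \ (A ∩ B)).card := by
      rw [Finset.card_sdiff_of_subset Finset.inter_subset_left,
        Finset.card_sdiff_of_subset Finset.inter_subset_right]
      omega
    have h4 := nsmul_le_nsmul_left (abs_nonneg (x m)) h3
    linarith
  rw [← hy, ← hw]
  have a1 : sup w + |w 0 - w 1| ≤ G w := le_max_left _ _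
  have a2 : 2 * |w 0| + |w 1| ≤ G w := (le_max_left _ _).trans (le_max_right _ _)
  have a3 : |w 0| + 2 * |w 1| ≤ G w := (le_max_right _ _).trans (le_max_right _ _)
  have hN := N_le_sup y
  have hT := T_eq w
  by_cases h0 : 0 ∈ B
  · have : w 0 = 0 := by rw [hw', if_pos h0]
    rw [this] at a1 hT
    simp at a1 hT
    unfold N at *; linarith
  by_cases h1 : 1 ∈ B
  · have : w 1 = 0 := by rw [hw', if_pos h1]
    rw [this] at a1 hT
    simp at a1 hT
    unfold N at *; linarith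
  have w0 : w 0 = x 0 := by rw [hw', if_neg h0]
  have w1 : w 1 = x 1 := by rw [hw', if_neg h1]
  by_cases h2 : 0 ∈ A
  · have := hsup 0 h2
    rw [← w0] at this
    unfold N at *; linarith
  by_cases h3 : 1 ∈ A
  · have := hsup 1 h3
    rw [← w1] at this
    unfold N at *; linarith
  have y0 : y 0 = w 0 := by rw [hy', if_neg h2, w0]
  have y1 : y 1 = w 1 := by rw [hy', if_neg h3, w1]
  have : G y ≤ G w := by
    rw [G, y0, y1]
    exact max_le (by linarith) (max_le a2 a3)
  have hT' := T_eq y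
  rw [y0, y1] at hT'
  unfold N; linarith

/-- `ℓ₁` with the equivalent norm `N`. -/
def XX : Type := L1

noncomputable instance : AddCommGroup XX := inferInstanceAs (AddCommGroup L1)
noncomputable instance : Module ℝ XX := inferInstanceAs (Module ℝ L1)

theorem N_zero : N 0 = 0 :=
  le_antisymm (by simpa using N_le_norm 0) ((norm_nonneg _).trans (norm_le_N _))

theorem N_neg (x : L1) : N (-x) = N x := by
  have key : ∀ z : L1, N (-z) ≤ N z := fun z => by simpa using N_smul_le (-1) z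
  exact le_antisymm (key x) (by simpa using key (-x))

theorem N_eq_zero (x : L1) (h : N x = 0) : x = 0 :=
  norm_eq_zero.mp (le_antisymm ((norm_le_N x).trans h.le) (norm_nonneg _))

noncomputable def nn : AddGroupNorm XX where
  toFun := N
  map_zero' := N_zero
  add_le' := N_add_le
  neg' := N_neg
  eq_zero_of_map_eq_zero' := N_eq_zero

noncomputable instance : NormedAddCommGroup XX := nn.toNormedAddCommGroup

noncomputable instance : NormedSpace ℝ XX where
  norm_smul_le := N_smul_le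

noncomputable def eqv : XX ≃L[ℝ] L1 :=
  LinearEquiv.toContinuousLinearEquivOfBounds (LinearEquiv.refl ℝ L1) 1 2
    (fun x => by rw [one_mul]; exact norm_le_N x) (fun x => N_le_norm x)

instance : CompleteSpace XX :=
  (completeSpace_congr (e := eqv.toEquiv) eqv.isUniformEmbedding).mpr inferInstance

noncomputable def ee (i : ℕ) : XX := eqv.symm (sg i 1)

noncomputable def ff (i : ℕ) : XX →L[ℝ] ℝ :=
  (lp.evalCLM ℝ (fun _ : ℕ => ℝ) 1 i).comp (eqv : XX →L[ℝ] L1)

theorem ff_apply (i : ℕ) (x : XX) : ff i x = eqv x i := rfl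

theorem norm_eq (x : XX) : ‖x‖ = N (eqv x) := rfl

theorem smul_sg (i : ℕ) (a : ℝ) : a • sg i 1 = sg i a := by
  rw [sg, sg, ← lp.single_smul]; simp

theorem norm_sub (x : XX) (A : Finset ℕ) (a : ℕ → ℝ) :
    ‖x - ∑ n ∈ A, a n • ee n‖ = N (eqv x - ∑ n ∈ A, sg n (a n)) := by
  rw [norm_eq, map_sub, map_sum]
  simp only [map_smul, ee, ContinuousLinearEquiv.apply_symm_apply, smul_sg]

/-- A real Banach space with a Markushevich basis that is 1-almost-greedy but not
1-semi-greedy. -/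
theorem result : ∃ (X : Type) (_ : NormedAddCommGroup X) (_ : NormedSpace ℝ X)
    (_ : CompleteSpace X) (e : ℕ → X) (f : ℕ → X →L[ℝ] ℝ),
    IsMarkushevich e f ∧ OneAlmostGreedy e f ∧ ¬ OneSemiGreedy e f := by
  refine ⟨XX, inferInstance, inferInstance, inferInstance, ee, ff, ⟨fun k n => ?_, fun x => ?_,
    fun x hx => ?_⟩, fun x A hA => ?_, fun h => ?_⟩
  · simp [ff_apply, ee, sg, Pi.single_apply]
  · have h1 := (lp.hasSum_single (p := 1) (by simp) (eqv x)).mapL (eqv.symm : L1 →L[ℝ] XX)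
    simp only [ContinuousLinearEquiv.coe_coe, ContinuousLinearEquiv.symm_apply_apply] at h1
    refine mem_closure_of_tendsto h1 (Filter.Eventually.of_forall fun s => ?_)
    refine Submodule.sum_mem _ fun i _ => ?_
    have : eqv.symm (lp.single 1 i (eqv x i)) = eqv x i • ee i := by
      rw [ee, ← map_smul, smul_sg]; rfl
    rw [this]
    exact Submodule.smul_mem _ _ (Submodule.subset_span ⟨i, rfl⟩)
  · apply eqv.injective
    rw [map_zero]
    exact lp.ext (funext hx)
  · refine le_csInf ⟨_, A, le_rfl, rfl⟩ ?_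
    rintro _ ⟨B, hB, rfl⟩
    rw [norm_sub, norm_sub]
    exact greedy (eqv x) A B hA hB
  · obtain ⟨z, hz⟩ : ∃ z : L1, z = sg 0 (9 / 10) + sg 1 (1 / 2) + sg 2 1 := ⟨_, rfl⟩
    have hz' : ∀ j, z j = if j = 0 then 9 / 10 else if j = 1 then 1 / 2 else
        if j = 2 then 1 else 0 := by
      intro j
      rw [hz]
      simp only [sg, lp.coeFn_add, Pi.add_apply, lp.coeFn_single, Pi.single_apply]
      split_ifs <;> simp_all
    have h1 := h (eqv.symm z) {2} (by
      intro n hn k hk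
      rw [Finset.mem_singleton] at hn hk
      simp only [ff_apply, ContinuousLinearEquiv.apply_symm_apply, hz', hn]
      split_ifs <;> first | omega | norm_num [abs_of_pos])
    have h2 : (23 / 10 : ℝ) ≤ sInf {r : ℝ | ∃ a : ℕ → ℝ,
        r = ‖eqv.symm z - ∑ n ∈ ({2} : Finset ℕ), a n • ee n‖} := by
      refine le_csInf ⟨_, 0, rfl⟩ ?_
      rintro _ ⟨a, rfl⟩
      rw [norm_sub, ContinuousLinearEquiv.apply_symm_apply]
      obtain ⟨w, hw⟩ : ∃ w, w = z - ∑ n ∈ ({2} : Finset ℕ), sg n (a n) := ⟨_, rfl⟩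
      have w0 : w 0 = 9 / 10 := by rw [hw, compl_apply, hz']; simp
      have w1 : w 1 = 1 / 2 := by rw [hw, compl_apply, hz']; simp
      have a2 : 2 * |w 0| + |w 1| ≤ G w := (le_max_left _ _).trans (le_max_right _ _)
      have a3 : 0 ≤ T w := norm_nonneg _
      rw [w0, w1, abs_of_pos (by norm_num), abs_of_pos (by norm_num)] at a2
      rw [← hw, N]; linarith
    have h3 : sInf {r : ℝ | ∃ (B : Finset ℕ) (a : ℕ → ℝ), B.card ≤ ({2} : Finset ℕ).card ∧
        r = ‖eqv.symm z - ∑ n ∈ B, a n • ee n‖} ≤ 9 / 4 := by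
      refine csInf_le_of_le ⟨0, ?_⟩ ⟨{0}, fun _ => 13 / 20, by simp, rfl⟩ ?_
      · rintro _ ⟨B, a, -, rfl⟩; exact norm_nonneg _
      rw [norm_sub, ContinuousLinearEquiv.apply_symm_apply]
      obtain ⟨w, hw⟩ : ∃ w, w = z - ∑ n ∈ ({0} : Finset ℕ), sg n (13 / 20) := ⟨_, rfl⟩
      have hw' : ∀ j, w j = z j - if j ∈ ({0} : Finset ℕ) then 13 / 20 else 0 := fun j => by
        rw [hw]; exact compl_apply z {0} (fun _ => 13 / 20) j
      have w0 : w 0 = 1 / 4 := by rw [hw', hz']; norm_num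
      have w1 : w 1 = 1 / 2 := by rw [hw', hz']; norm_num
      have hs : sup w ≤ 1 := sup_le fun j => by
        rw [hw', hz']
        simp only [Finset.mem_singleton]
        split_ifs <;> norm_num [abs_of_pos]
      have hT : T w = 1 := by
        have : w - ∑ i ∈ ({0, 1} : Finset ℕ), sg i (w i) = sg 2 1 := by
          refine lp.ext (funext fun j => ?_)
          rw [compl_apply, hw', hz']
          simp only [sg, lp.coeFn_single, Pi.single_apply, Finset.mem_singleton,
            Finset.mem_insert]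
          split_ifs <;> simp_all
        rw [T, this, sg, lp.norm_single (by simp)]; simp
      have hG : G w ≤ 5 / 4 := by
        rw [G, w0, w1, abs_of_neg (by norm_num), abs_of_pos (by norm_num),
          abs_of_pos (by norm_num)]
        exact max_le (by linarith) (max_le (by norm_num) (by norm_num))
      show N (z - ∑ n ∈ ({0} : Finset ℕ), sg n (13 / 20)) ≤ 9 / 4
      rw [← hw, N]; linarith
    linarith

end Pool.Agent.Results.MP_b7f2f1_an.NotSemi
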